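import Pool.Agent.Helper58.SF.StA

/-!
# Project SF (MP_a45945_gt), module ARQ: closed sets with `H_2 = 0` in a level do not separate it
-/

set_option autoImplicit false

namespace Pool.Agent.Helper99.SF

open Set Topology Pool.Agent.Helper13.TR Pool.Agent.Helper58.SF
open Pool.Agent.Helper13.TW (IsArc Spl IsSCC dch Chn Splt GT CSy MP Val LR MCell StARB StARX StSCL
  StUAR StINF StLIN StAC1 StSDM)

theorem hARQ (hUPC : StUPC) (hBEX : StBEX) (hTUB : StTUB) (hMV : StMV) (hJOI : StJOI) (hMON : StMON)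
    (hSDA : StSDA) (hFLW : StFLW) : StARQ := by
  intro P _ r R dg hSB t ht0 ht1 hpc D hDc hDt hPP p q hp hq hpD hqD
  have hmet := hSB.met
  have hF : Flow P r R := hSB.box.toFlow
  obtain ⟨f1, f2, -, -, -, -, -, -⟩ := hFLW P r R hF
  have hrt : ∀ y : P, t < r y → r (R t y) = t := by
    intro y hy
    rw [hF.rR t y ht0, min_eq_left hy.le]
  -- the part above the level
  obtain ⟨-, hU⟩ := hUPC P r R dg hSB t ht0 ht1 {y : P | r y = t} ⟨univ, isOpen_univ, by simp⟩ hpc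
  set U : Set P := {y : P | t < r y ∧ R t y ∈ {y : P | r y = t}} with hUdef
  -- two points above
  have above : ∀ x : P, r x = t → ∃ a : P, t < r a ∧ R t a = x := by
    intro x hx
    obtain ⟨a, ha, hra⟩ := (hBEX P r R dg hSB).1 x ((t + 1) / 2) (by rw [hx]; linarith) (by linarith)
    refine ⟨a, by rw [hra]; linarith, ?_⟩
    have h2 := ha.2
    rwa [hx] at h2
  obtain ⟨a, hta, hRa⟩ := above p hp
  obtain ⟨b, htb, hRb⟩ := above q hq
  have haU : a ∈ U := ⟨hta, hrt a hta⟩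
  have hbU : b ∈ U := ⟨htb, hrt b htb⟩
  obtain ⟨e, heU, hbe⟩ := (hJOI P U).1 a b (hU.joinedIn a haU b hbU)
  -- the two closed sets
  set A₁ : Set P := {y : P | r y ≤ t} with hA₁
  set A₂ : Set P := UpS r R t D with hA₂
  have hc₁ : IsClosed A₁ := isClosed_le hF.rc continuous_const
  have hc₂ : IsClosed A₂ := f2 t D ht0 hDc
  have hAA : A₁ ∩ A₂ = D := by
    ext y
    constructor
    · rintro ⟨h1, h2, h3⟩
      rwa [hF.Rid t y h1] at h3
    · intro hy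
      have h1 : r y = t := hDt y hy
      refine ⟨h1.le, h1.ge, ?_⟩
      rw [hF.Rid t y h1.le]
      exact hy
  obtain ⟨m1, -, -, -, -, -⟩ := hMON P
  have he₁ : e ∈ Nul A₁ 1 := by
    refine Submodule.mem_sup_left (m1 U A₁ᶜ 1 ?_ heU)
    intro y hy h
    exact absurd hy.1 (not_lt.2 h)
  have hnA₂ : ∀ x : P, R t x ∉ D → x ∈ A₂ᶜ := fun x hx h => hx h.2
  have haA : a ∈ A₂ᶜ := hnA₂ a (by rw [hRa]; exact hpD)
  have hbA : b ∈ A₂ᶜ := hnA₂ b (by rw [hRb]; exact hqD)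
  have he₂ : e ∈ Nul A₂ 1 := by
    refine hTUB P r R hF t D 1 ht0 ?_
    change bd 0 e ∈ cin A₂ᶜ 0
    rw [hbe]
    exact Submodule.sub_mem _ ((hJOI P A₂ᶜ).2.2.2.2 b hbA) ((hJOI P A₂ᶜ).2.2.2.2 a haA)
  have heN : e ∈ Nul (A₁ ∪ A₂) 1 := by
    refine (hMV P A₁ A₂ hc₁ hc₂ 1).2.2.2.2 ?_ e he₁ he₂
    rw [hAA]
    exact hPP
  obtain ⟨ρ, hρ, β', ⟨β, rfl⟩, hs⟩ := Submodule.mem_sup.1 heN
  have hbρ : bd 0 ρ = Finsupp.single (pt b) 1 - Finsupp.single (pt a) 1 := by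
    rw [← hbe, ← hs, map_add, (hSDA P).1 0 β, add_zero]
  have hS : ∀ y : P, y ∈ (A₁ ∪ A₂)ᶜ → t < r y ∧ R t y ∉ D := by
    intro y hy
    rw [mem_compl_iff, mem_union, not_or] at hy
    have h1 : t < r y := not_le.1 hy.1
    exact ⟨h1, fun h => hy.2 ⟨h1.le, h⟩⟩
  have haS : a ∈ (A₁ ∪ A₂)ᶜ := by
    rw [mem_compl_iff, mem_union, not_or]
    exact ⟨fun h => absurd hta (not_lt.2 h), haA⟩
  have hjoin : JoinedIn (A₁ ∪ A₂)ᶜ a b := by
    by_contra hn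
    set T : Set P := {x : P | JoinedIn (A₁ ∪ A₂)ᶜ a x} with hT
    have h1 := (hJOI P (A₁ ∪ A₂)ᶜ).2.1 T (fun x y hxy =>
      ⟨fun h => JoinedIn.trans h hxy, fun h => JoinedIn.trans h hxy.symm⟩) ρ hρ
    rw [hbρ, map_sub, ((hJOI P (A₁ ∪ A₂)ᶜ).2.2.1 T b).2 hn,
      ((hJOI P (A₁ ∪ A₂)ᶜ).2.2.1 T a).1 (JoinedIn.refl haS)] at h1
    norm_num at h1
  obtain ⟨γ, hγ⟩ := hjoin
  have hfin : JoinedIn ({y : P | r y = t} \ D) (R t a) (R t b) := by
    refine ⟨γ.map (f1 t ht0), fun s => ?_⟩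
    obtain ⟨h1, h2⟩ := hS _ (hγ s)
    exact ⟨hrt _ h1, h2⟩
  rwa [hRa, hRb] at hfin

end Pool.Agent.Helper99.SF
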